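import Pool.Agent.MP_e23604_nt.BDefs2
import Pool.Agent.MP_e23604_nt.BMain

/-!
For an elliptic curve over Q with complex multiplication and every large prime p that splits in
the CM field, the p-torsion of the Tate-Shafarevich group has order at most p^((1/4 + ε) p).
-/

namespace Pool.Agent.Results.MP_e23604_nt.CMBound

open Pool.Agent.MP_e23604_nt

theorem result (W : WeierstrassCurve ℚ) [W.IsElliptic] (t N : ℤ) (hCM : HasCM W t N) (ε : ℝ)
    (hε : 0 < ε) : ∃ p₀ : ℕ, ∀ p : ℕ, p₀ ≤ p → p.Prime →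
      IsSquare ((t ^ 2 - 4 * N : ℤ) : ZMod p) →
        (shaTors W p).Finite ∧ ((shaTors W p).ncard : ℝ) ≤ (p : ℝ) ^ ((1 / 4 + ε) * p) :=
  B.main W hCM hε

end Pool.Agent.Results.MP_e23604_nt.CMBound
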