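import Pool.Agent.MP_e23604_nt.S.Fifty
import Pool.Agent.MP_e23604_nt.T.All

/-!
For the curves x^3 + y^3 = D, written y^2 = x^3 - 432 D^2, the rank plus the corank of the
3-primary part of the Tate-Shafarevich group is 0 for half of all D and 1 for half of all D,
according to an explicit parity of D. When it is 0 the rank is zero and the 3-primary part is
finite.
-/

namespace Pool.Agent.Results.MP_e23604_nt.CubicSelmer

open Filter Pool.Agent.MP_e23604_nt

theorem result (r : ℕ) (hr : r ≤ 1) : Tendsto (fun X : ℕ =>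
    ({D : ℕ | 1 ≤ D ∧ D ≤ X ∧ par3 D = r ∧ ∃ C : ℕ, ∀ k : ℕ,
      3 ^ (k * r) ≤ (shaTors (EC D) (3 ^ k)).encard *
        3 ^ (k * Module.finrank ℤ (EC D).toAffine.Point) ∧
      (shaTors (EC D) (3 ^ k)).encard * 3 ^ (k * Module.finrank ℤ (EC D).toAffine.Point) ≤
        C * 3 ^ (k * r)}.ncard : ℝ) / X)
    atTop (nhds (1 / 2)) :=
  S.fifty_of T.finT r hr

end Pool.Agent.Results.MP_e23604_nt.CubicSelmer
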