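import Pool.Agent.MP_e23604_nt.W.All
import Pool.Agent.MP_e23604_nt.W.GMain

/-!
For half of all D, namely for almost all D of even parity, the curve x^3 + y^3 = D, written
y^2 = x^3 - 432 D^2, has finitely many rational points and finite Tate-Shafarevich group.
-/

namespace Pool.Agent.Results.MP_e23604_nt.CubicSha

open Filter Pool.Agent.MP_e23604_nt

theorem result : Tendsto (fun X : ℕ =>
    ({D : ℕ | 1 ≤ D ∧ D ≤ X ∧ par3 D = 0 ∧ Finite (EC D).toAffine.Point ∧
      Finite (Sha (EC D))}.ncard : ℝ) / X) atTop (nhds (1 / 2)) :=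
  W.half_of W.ISO_ok W.FAC_ok W.PLK_ok W.INE_ok W.FIH_ok W.FINP_fin

end Pool.Agent.Results.MP_e23604_nt.CubicSha
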