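import Pool.Agent.MP_e23604_nt.GMain

/-!
For every elliptic curve over Q and every large prime p, the p-torsion of the Tate-Shafarevich
group has order at most p^((1/4 + ε) p^2).
-/

namespace Pool.Agent.Results.MP_e23604_nt.GenBound

open Pool.Agent.MP_e23604_nt

theorem result (W : WeierstrassCurve ℚ) [W.IsElliptic] (ε : ℝ) (hε : 0 < ε) :
    ∃ p₀ : ℕ, ∀ p : ℕ, p₀ ≤ p → p.Prime → (shaTors W p).Finite ∧
      ((shaTors W p).ncard : ℝ) ≤ (p : ℝ) ^ ((1 / 4 + ε) * (p : ℝ) ^ 2) :=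
  B.main_gen W hε

end Pool.Agent.Results.MP_e23604_nt.GenBound
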