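import Pool.Agent.MP_e23604_nt.Final2

/-!
Infinitely many j-invariants of elliptic curves over Q of Mordell-Weil rank exactly 2, with a
rational point of order 3, whose Tate-Shafarevich group has trivial 3-primary part.
-/

namespace Pool.Agent.Results.MP_e23604_nt.InfRankTwoSha3

open Pool.Agent.MP_e23604_nt

theorem result : Set.Infinite {j : ℚ | ∃ (W : WeierstrassCurve ℚ) (_ : W.IsElliptic),
    W.j = j ∧ Module.finrank ℤ W.toAffine.Point = 2 ∧ (∃ P : W.toAffine.Point, addOrderOf P = 3) ∧
      ∀ c ∈ Sha W, ∀ k : ℕ, 3 ^ k • c = 0 → c = 0} :=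
  infinite_rank_two

end Pool.Agent.Results.MP_e23604_nt.InfRankTwoSha3
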