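import Pool.Agent.MP_e23604_nt.L.Main

/-!
For every elliptic curve over Q and every large prime p, the p-torsion of the Tate-Shafarevich
group has order at most p^(200 p).
-/

namespace Pool.Agent.Results.MP_e23604_nt.LinBound

open Pool.Agent.MP_e23604_nt

theorem result (W : WeierstrassCurve ℚ) [W.IsElliptic] :
    ∃ p₀ : ℕ, ∀ p : ℕ, p₀ ≤ p → p.Prime →
      (shaTors W p).Finite ∧ (shaTors W p).ncard ≤ p ^ (200 * p) :=
  L.main_lin W

end Pool.Agent.Results.MP_e23604_nt.LinBound
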