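import Pool.Agent.MP_e23604_nt.P.Fin
import Pool.Agent.MP_e23604_nt.P.RDefs

/-!
Ordered by size of D, a positive proportion of a four parameter family of curves
y^2 = x^3 + D x has D squarefree, Mordell-Weil rank exactly 2 and Tate-Shafarevich group with
trivial 2-primary part.
-/

namespace Pool.Agent.Results.MP_e23604_nt.PosRankTwo

open Pool.Agent.MP_e23604_nt Finset

theorem result : ∃ c : ℝ, 0 < c ∧ ∃ T₀ : ℕ, ∀ T : ℕ, T₀ ≤ T →
    c * max (((Icc 1 T ×ˢ Icc 1 T ×ˢ Icc 1 T ×ˢ Icc 1 T).filter fun x : ℕ × ℕ × ℕ × ℕ =>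
      famD x.1 x.2.1 x.2.2.1 x.2.2.2 ≤ T).card : ℝ) (√T * Real.log T) ≤
      Set.ncard {D : ℕ | D ≤ T ∧ Squarefree D ∧
        (∃ a b p q : ℕ, 0 < a ∧ 0 < b ∧ 0 < p ∧ 0 < q ∧ D = famD a b p q) ∧
        (ED D).IsElliptic ∧ Module.finrank ℤ (ED D).toAffine.Point = 2 ∧
        ∀ s ∈ Sha (ED D), ∀ k : ℕ, 2 ^ k • s = 0 → s = 0} :=
  P.pos_rank_two

end Pool.Agent.Results.MP_e23604_nt.PosRankTwo
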