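import Pool.Agent.MP_e23604_nt.BDefs2
import Pool.Agent.MP_e23604_nt.Q.All

/-!
For almost all squarefree D, the rank of y^2 = x^3 + D x plus the corank of the 2-primary part
of its Tate-Shafarevich group is at most one.
-/

namespace Pool.Agent.Results.MP_e23604_nt.QuarticCorank

open Filter Pool.Agent.MP_e23604_nt

theorem result : Tendsto (fun X : ℕ => ({D : ℤ | |D| ≤ X ∧ Squarefree D ∧
    ¬ ∃ C : ℕ, ∀ k : ℕ, (shaTors (EZ D) (2 ^ k)).encard *
      2 ^ (k * Module.finrank ℤ (EZ D).toAffine.Point) ≤ C * 2 ^ k}.ncard : ℝ) / X)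
    atTop (nhds 0) :=
  Q.all_FinQ

end Pool.Agent.Results.MP_e23604_nt.QuarticCorank
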