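import Pool.Agent.MP_e23604_nt.Family

/-!
A two-parameter family of elliptic curves over Q of Mordell-Weil rank exactly 2 whose
Tate-Shafarevich group has trivial 3-primary part.
-/

namespace Pool.Agent.Results.MP_e23604_nt.RankTwoSha3

open Pool.Agent.MP_e23604_nt

theorem result (r n : ℤ) (h1 : ∀ i, Prime (forms r n i)) (h2 : ∀ i, 19 < |forms r n i|)
    (h3 : Function.Injective fun i => |forms r n i|)
    (h4 : ∀ p : ℕ, p.Prime → p % 3 = 1 →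
      (p : ℤ) ∣ forms r n 0 * forms r n 1 * n * (54 * r - n) → p = 7 ∨ p = 13 ∨ p = 19)
    (h5 : 19 ∣ n * (54 * r - n)) (h6 : ¬ ∃ x : ZMod 19, (r : ZMod 19) = x ^ 3)
    (h7 : ¬ ∃ x : ZMod 7, ((r * (27 * r - n) ^ 2 : ℤ) : ZMod 7) = x ^ 3)
    (h8 : ¬ ∃ x : ZMod 13, ((r * (27 * r - n) ^ 2 : ℤ) : ZMod 13) = x ^ 3) :
    (curve r n).IsElliptic ∧ Module.finrank ℤ (curve r n).toAffine.Point = 2 ∧
      ∀ c ∈ Sha (curve r n), ∀ k : ℕ, 3 ^ k • c = 0 → c = 0 :=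
  family r n h1 h2 h3 h4 h5 h6 (by rwa [Int.cast_mul, Int.cast_pow] at h7)
    (by rwa [Int.cast_mul, Int.cast_pow] at h8)

end Pool.Agent.Results.MP_e23604_nt.RankTwoSha3
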